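import Mathlib
import Pool.Agent.W355.FR.Stm

set_option autoImplicit false

namespace Pool.Agent.W858.FR.SMA

open Polynomial Pool.Agent.W355.FR

/-- factorization of the form over the complex numbers -/
theorem hv_factor (P : ℤ[X]) (a b : ℤ) :
    ((hv P.natDegree P a b : ℤ) : ℂ) = (P.leadingCoeff : ℂ) *
      (((P.map (Int.castRingHom ℂ)).roots).map (fun θ => (a : ℂ) - θ * b)).prod := by
  have hinj : Function.Injective (Int.castRingHom ℂ) := RingHom.injective_int _
  set Q := P.map (Int.castRingHom ℂ) with hQ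
  have hsp : Q.Splits := IsAlgClosed.splits Q
  have hdeg : Q.natDegree = P.natDegree := natDegree_map_eq_of_injective hinj P
  have hcard : Q.roots.card = P.natDegree := by
    rw [← hdeg]; exact hsp.natDegree_eq_card_roots.symm
  have hlc : Q.leadingCoeff = (P.leadingCoeff : ℂ) := by
    rw [hQ, leadingCoeff_map_of_injective hinj]; rfl
  unfold hv
  by_cases hb : b = 0
  · subst hb
    rw [Finset.sum_range_succ, Finset.sum_eq_zero]
    · simp only [Nat.sub_self, pow_zero, mul_one, zero_add, Int.cast_zero, mul_zero, sub_zero,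
        Multiset.map_const', Multiset.prod_replicate, hcard]
      push_cast
      rfl
    · intro i hi
      have : P.natDegree - i ≠ 0 := by
        have := Finset.mem_range.1 hi
        omega
      rw [zero_pow this, mul_zero]
  · have hb' : (b : ℂ) ≠ 0 := by exact_mod_cast hb
    have h1 := hsp.eval_eq_prod_roots ((a : ℂ) / b)
    rw [hlc] at h1
    have h2 : Q.eval ((a : ℂ) / b) =
        ∑ i ∈ Finset.range (P.natDegree + 1), (P.coeff i : ℂ) * ((a : ℂ) / b) ^ i := by
      rw [eval_eq_sum_range, hdeg]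
      apply Finset.sum_congr rfl
      intro i _
      rw [hQ, coeff_map]
      rfl
    have h3 : ((∑ i ∈ Finset.range (P.natDegree + 1),
        P.coeff i * a ^ i * b ^ (P.natDegree - i) : ℤ) : ℂ) =
        (b : ℂ) ^ P.natDegree * Q.eval ((a : ℂ) / b) := by
      rw [h2, Finset.mul_sum]
      push_cast
      apply Finset.sum_congr rfl
      intro i hi
      have hi' : i ≤ P.natDegree := by
        have := Finset.mem_range.1 hi
        omega
      rw [div_pow]
      have h4 : (b : ℂ) ^ P.natDegree = (b : ℂ) ^ (P.natDegree - i) * (b : ℂ) ^ i := by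
        rw [← pow_add]; congr 1; omega
      rw [h4]
      field_simp
    rw [h3, h1, mul_left_comm]
    congr 1
    have h5 : (b : ℂ) ^ P.natDegree = (Q.roots.map (fun _ => (b : ℂ))).prod := by
      rw [Multiset.map_const', Multiset.prod_replicate, hcard]
    rw [h5, ← Multiset.prod_map_mul]
    congr 1
    apply Multiset.map_congr rfl
    intro θ _
    field_simp

theorem prod_ge (S : Multiset ℂ) (f : ℂ → ℂ) (R : ℝ) (hR : 0 ≤ R) (h : ∀ θ ∈ S, R ≤ ‖f θ‖) :
    R ^ S.card ≤ ‖(S.map f).prod‖ := by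
  induction S using Multiset.induction_on with
  | empty => simp
  | cons θ S ih =>
    rw [Multiset.card_cons, Multiset.map_cons, Multiset.prod_cons, norm_mul, pow_succ, mul_comm]
    apply mul_le_mul
    · exact h θ (Multiset.mem_cons_self _ _)
    · exact ih (fun θ' h' => h θ' (Multiset.mem_cons_of_mem h'))
    · positivity
    · exact norm_nonneg _

/-- a small value forces `a` to be close to some `θ b` -/
theorem close (P : ℤ[X]) (hP : 0 < P.natDegree) (a b : ℤ) (R : ℝ) (hR : 0 < R)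
    (h : |((hv P.natDegree P a b : ℤ) : ℝ)| ≤ R ^ P.natDegree) :
    ∃ θ ∈ (P.map (Int.castRingHom ℂ)).roots.toFinset, ‖(a : ℂ) - θ * b‖ < 2 * R := by
  by_contra hcon
  push Not at hcon
  have hinj : Function.Injective (Int.castRingHom ℂ) := RingHom.injective_int _
  have hcard : (P.map (Int.castRingHom ℂ)).roots.card = P.natDegree := by
    rw [← natDegree_map_eq_of_injective hinj P]
    exact (IsAlgClosed.splits _).natDegree_eq_card_roots.symm
  have h1 := prod_ge (P.map (Int.castRingHom ℂ)).roots (fun θ => (a : ℂ) - θ * b) (2 * R)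
    (by positivity) (fun θ hθ => hcon θ (Multiset.mem_toFinset.2 hθ))
  rw [hcard] at h1
  have h2 : |((hv P.natDegree P a b : ℤ) : ℝ)| = ‖((hv P.natDegree P a b : ℤ) : ℂ)‖ := by
    rw [Complex.norm_intCast]
  rw [h2, hv_factor, norm_mul] at h
  have h3 : (1 : ℝ) ≤ ‖(P.leadingCoeff : ℂ)‖ := by
    rw [Complex.norm_intCast]
    have h4 : P.leadingCoeff ≠ 0 := by
      intro h5
      rw [leadingCoeff_eq_zero] at h5
      rw [h5] at hP
      simp at hP
    have h5 : (1 : ℤ) ≤ |P.leadingCoeff| := Int.one_le_abs h4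
    exact_mod_cast h5
  have h6 : (2 * R) ^ P.natDegree ≤ R ^ P.natDegree := by
    calc (2 * R) ^ P.natDegree ≤ _ := h1
      _ = 1 * _ := (one_mul _).symm
      _ ≤ ‖(P.leadingCoeff : ℂ)‖ * _ := mul_le_mul_of_nonneg_right h3 (norm_nonneg _)
      _ ≤ _ := h
  have h7 : R ^ P.natDegree < (2 * R) ^ P.natDegree :=
    pow_lt_pow_left₀ (by linarith) hR.le (by omega)
  linarith

/-- the number of integers in an interval -/
theorem card_int (x R : ℝ) (hR : 0 < R) :
    ((Finset.Icc ⌈x - R⌉ ⌊x + R⌋).card : ℝ) ≤ 2 * R + 1 := by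
  rw [Int.card_Icc]
  have h1 : ((⌊x + R⌋ : ℤ) : ℝ) ≤ x + R := Int.floor_le _
  have h2 : x - R ≤ ((⌈x - R⌉ : ℤ) : ℝ) := Int.le_ceil _
  rcases le_or_gt 0 (⌊x + R⌋ + 1 - ⌈x - R⌉) with h | h
  · have h3 : (((⌊x + R⌋ + 1 - ⌈x - R⌉).toNat : ℤ) : ℝ) = ((⌊x + R⌋ + 1 - ⌈x - R⌉ : ℤ) : ℝ) := by
      rw [Int.toNat_of_nonneg h]
    rw [Int.cast_natCast] at h3
    rw [h3]
    push_cast
    linarith
  · rw [Int.toNat_of_nonpos h.le]
    simp
    linarith

theorem count (P : ℤ[X]) (hP : 0 < P.natDegree) (H : ℕ) (R : ℝ) (hR : 0 < R)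
    (s : Finset (ℤ × ℤ)) (hs : s ⊆ box H)
    (h : ∀ x ∈ s, |((hv P.natDegree P x.1 x.2 : ℤ) : ℝ)| ≤ R ^ P.natDegree) :
    (s.card : ℝ) ≤ (2 * H + 1) * (P.natDegree * (4 * R + 1)) := by
  classical
  have hinj : Function.Injective (Int.castRingHom ℂ) := RingHom.injective_int _
  have hcard : (P.map (Int.castRingHom ℂ)).roots.card = P.natDegree := by
    rw [← natDegree_map_eq_of_injective hinj P]
    exact (IsAlgClosed.splits _).natDegree_eq_card_roots.symm
  set Z := (P.map (Int.castRingHom ℂ)).roots.toFinset with hZ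
  have hZc : Z.card ≤ P.natDegree := by
    rw [← hcard]; exact Multiset.toFinset_card_le _
  let T : ℤ → ℂ → Finset (ℤ × ℤ) := fun b θ =>
    (Finset.Icc ⌈(θ * b).re - 2 * R⌉ ⌊(θ * b).re + 2 * R⌋).image (fun a => (a, b))
  have hsub : s ⊆ (Finset.Icc (-(H : ℤ)) H).biUnion (fun b => Z.biUnion (fun θ => T b θ)) := by
    intro x hx
    have hxb := hs hx
    unfold box at hxb
    rw [Finset.mem_filter, Finset.mem_product] at hxb
    rw [Finset.mem_biUnion]
    refine ⟨x.2, hxb.1.2, ?_⟩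
    rw [Finset.mem_biUnion]
    obtain ⟨θ, hθ, hc⟩ := close P hP x.1 x.2 R hR (h x hx)
    refine ⟨θ, hθ, ?_⟩
    rw [Finset.mem_image]
    refine ⟨x.1, ?_, rfl⟩
    have h1 : |((x.1 : ℂ) - θ * x.2).re| < 2 * R := lt_of_le_of_lt (Complex.abs_re_le_norm _) hc
    rw [Complex.sub_re, Complex.intCast_re, abs_lt] at h1
    rw [Finset.mem_Icc]
    constructor
    · rw [Int.ceil_le]; linarith
    · rw [Int.le_floor]; linarith
  have h1 : s.card ≤ ∑ b ∈ Finset.Icc (-(H : ℤ)) H, ∑ θ ∈ Z, (T b θ).card :=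
    (Finset.card_le_card hsub).trans (Finset.card_biUnion_le.trans
      (Finset.sum_le_sum fun b _ => Finset.card_biUnion_le))
  have h2 : (s.card : ℝ) ≤ ∑ b ∈ Finset.Icc (-(H : ℤ)) H, ∑ θ ∈ Z, ((T b θ).card : ℝ) := by
    exact_mod_cast h1
  refine h2.trans ?_
  have h3 : ∀ b θ, ((T b θ).card : ℝ) ≤ 4 * R + 1 := by
    intro b θ
    have h4 : ((T b θ).card : ℝ) ≤
        ((Finset.Icc ⌈(θ * b).re - 2 * R⌉ ⌊(θ * b).re + 2 * R⌋).card : ℝ) := by
      exact_mod_cast Finset.card_image_le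
    have h5 := card_int (θ * b).re (2 * R) (by linarith)
    linarith
  calc ∑ b ∈ Finset.Icc (-(H : ℤ)) H, ∑ θ ∈ Z, ((T b θ).card : ℝ)
      ≤ ∑ b ∈ Finset.Icc (-(H : ℤ)) H, ∑ θ ∈ Z, (4 * R + 1) :=
        Finset.sum_le_sum fun b _ => Finset.sum_le_sum fun θ _ => h3 b θ
    _ = (2 * H + 1) * (Z.card * (4 * R + 1)) := by
        rw [Finset.sum_const, Finset.sum_const, Int.card_Icc, nsmul_eq_mul, nsmul_eq_mul]
        congr 1
        have : ((H : ℤ) + 1 - -(H : ℤ)).toNat = 2 * H + 1 := by omega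
        rw [this]
        push_cast
        ring
    _ ≤ (2 * H + 1) * (P.natDegree * (4 * R + 1)) := by
        apply mul_le_mul_of_nonneg_left _ (by positivity)
        apply mul_le_mul_of_nonneg_right _ (by positivity)
        exact_mod_cast hZc

theorem main : P_SMA := by
  intro P hP ε δ hε hδ
  set d := P.natDegree with hd
  have hd0 : (0 : ℝ) < d := by exact_mod_cast hP
  have hη : 0 < ε / d := by positivity
  have hc : 0 < δ / (6 * d) / 4 := by positivity
  have t1 : Filter.Tendsto (fun n : ℕ => (n : ℝ) ^ (-(ε / d))) Filter.atTop (nhds 0) :=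
    (tendsto_rpow_neg_atTop hη).comp tendsto_natCast_atTop_atTop
  have t2 : Filter.Tendsto (fun n : ℕ => (1 : ℝ) / n) Filter.atTop (nhds 0) :=
    tendsto_one_div_atTop_nhds_zero_nat
  have e1 := t1.eventually (gt_mem_nhds hc)
  have e2 := t2.eventually (gt_mem_nhds (show 0 < δ / (6 * d) by positivity))
  obtain ⟨H₀, hH₀⟩ := Filter.eventually_atTop.1 (e1.and (e2.and (Filter.eventually_ge_atTop 1)))
  refine ⟨H₀, fun H hH s hs hx => ?_⟩
  obtain ⟨h1, h2, h3⟩ := hH₀ H hH
  have hH1 : (1 : ℝ) ≤ H := by exact_mod_cast h3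
  have hHpos : (0 : ℝ) < H := by linarith
  set R : ℝ := (H : ℝ) ^ (1 - ε / d) with hR
  have hRpos : 0 < R := Real.rpow_pos_of_pos hHpos _
  have hRd : R ^ d = (H : ℝ) ^ ((d : ℝ) - ε) := by
    rw [hR, ← Real.rpow_natCast, ← Real.rpow_mul hHpos.le]
    congr 1
    field_simp
  have hcount := count P hP H R hRpos s hs (fun x hx' => by
    have := hx x hx'
    rw [← hd, hRd]
    exact this)
  rw [← hd] at hcount
  have hRH : R = H * (H : ℝ) ^ (-(ε / d)) := by
    rw [hR, sub_eq_add_neg, Real.rpow_add hHpos, Real.rpow_one]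
  have h4 : 4 * R + 1 ≤ H * (δ / (3 * d)) := by
    have h5 : (1 : ℝ) ≤ H * (δ / (6 * d)) := by
      rw [div_lt_iff₀ hHpos] at h2
      linarith
    have h6 : 4 * R ≤ H * (δ / (6 * d)) := by
      rw [hRH]
      have := mul_le_mul_of_nonneg_left h1.le hHpos.le
      nlinarith
    have h7 : δ / (3 * d) = δ / (6 * d) + δ / (6 * d) := by
      field_simp
      ring
    rw [h7]
    linarith
  calc (s.card : ℝ) ≤ (2 * H + 1) * (d * (4 * R + 1)) := hcount
    _ ≤ (3 * H) * (d * (H * (δ / (3 * d)))) := by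
        apply mul_le_mul
        · linarith
        · exact mul_le_mul_of_nonneg_left h4 hd0.le
        · positivity
        · positivity
    _ = δ * (H : ℝ) ^ 2 := by
        field_simp

end Pool.Agent.W858.FR.SMA
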